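import Pool.Agent.Work.MP_dfcec9_lc.Assemble

/-!
MP_dfcec9_lc.  Point sets in convex position with few facets for which every insertion order
creates many facets.
-/

namespace Pool.Agent.Results.MP_dfcec9_lc.EveryInsertionOrder

open Pool.Agent.IncHull

theorem numeric {j i e : ℕ} (hie : i ≤ e) :
    ∃ c : ℝ, 0 < c ∧ ∃ x₀ : ℕ, ∀ x m N : ℕ, x₀ ≤ x → x₀ ≤ m →
      (m - m / 2) * (∑ r ∈ Finset.range x, Nat.choose ((r - 4) / 2) j) * Nat.choose (m / 2) i ≤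
        Nat.choose e i * N + x * (Nat.choose ((x - 4) / 2) j * Nat.choose (m / 2) i) →
      c * (x : ℝ) ^ (j + 1) * (m : ℝ) ^ (i + 1) ≤ N := by
  obtain ⟨c₀, hc₀, hA⟩ := sum_choose_lower j
  have hfac : (0 : ℝ) < (Nat.factorial i : ℝ) := by positivity
  have hch : (0 : ℝ) < (Nat.choose e i : ℝ) := by exact_mod_cast Nat.choose_pos hie
  refine ⟨c₀ / (4 ^ (i + 1) * (Nat.factorial i : ℝ) * (Nat.choose e i : ℝ)), by positivity,
    64 * (j + 1) + ⌈4 / c₀⌉₊ + (4 * i + 8), ?_⟩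
  intro x m N hx hm hN
  have hAx := hA x (by omega)
  set A : ℝ := ((∑ r ∈ Finset.range x, Nat.choose ((r - 4) / 2) j : ℕ) : ℝ) with hAdef
  set B : ℝ := ((Nat.choose (m / 2) i : ℕ) : ℝ) with hB
  set D : ℝ := ((Nat.choose ((x - 4) / 2) j : ℕ) : ℝ) with hD
  have hNr : ((m - m / 2 : ℕ) : ℝ) * A * B ≤ (Nat.choose e i : ℝ) * N + x * (D * B) := by
    rw [hAdef, hB, hD]
    exact_mod_cast hN
  have hM : (m : ℝ) / 2 ≤ ((m - m / 2 : ℕ) : ℝ) := by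
    have h1 : m ≤ 2 * (m - m / 2) := by omega
    have h2 : (m : ℝ) ≤ 2 * ((m - m / 2 : ℕ) : ℝ) := by exact_mod_cast h1
    linarith
  have hm1 : 1 ≤ c₀ * (m : ℝ) / 4 := by
    have h1 : ((⌈4 / c₀⌉₊ : ℕ) : ℝ) ≤ m := by
      have : ⌈4 / c₀⌉₊ ≤ m := by omega
      exact_mod_cast this
    have h2 : 4 / c₀ ≤ m := (Nat.le_ceil _).trans h1
    rw [div_le_iff₀ hc₀] at h2
    linarith
  have hDx : D ≤ (x : ℝ) ^ j := by
    have h1 : Nat.choose ((x - 4) / 2) j ≤ x ^ j :=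
      (Nat.choose_le_pow _ _).trans (Nat.pow_le_pow_left (by omega) _)
    rw [hD]
    exact_mod_cast h1
  have hBm : ((m : ℝ) / 4) ^ i / (Nat.factorial i : ℝ) ≤ B := by
    refine le_trans ?_ (Nat.pow_le_choose (α := ℝ) i (m / 2))
    apply div_le_div_of_nonneg_right _ hfac.le
    apply pow_le_pow_left₀ (by positivity)
    have h3 : m ≤ 4 * (m / 2 + 1 - i) := by omega
    have h4 : (m : ℝ) ≤ 4 * ((m / 2 + 1 - i : ℕ) : ℝ) := by exact_mod_cast h3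
    linarith
  have hx0 : (0 : ℝ) ≤ x := Nat.cast_nonneg x
  have hm0 : (0 : ℝ) ≤ m := Nat.cast_nonneg m
  have hB0 : (0 : ℝ) ≤ B := Nat.cast_nonneg _
  have hA0 : (0 : ℝ) ≤ A := Nat.cast_nonneg _
  have hxp : (0 : ℝ) ≤ (x : ℝ) ^ (j + 1) := by positivity
  have hkey : c₀ * (m : ℝ) / 4 * (x : ℝ) ^ (j + 1) ≤ ((m - m / 2 : ℕ) : ℝ) * A - x * D := by
    have h1 : (m : ℝ) / 2 * (c₀ * (x : ℝ) ^ (j + 1)) ≤ ((m - m / 2 : ℕ) : ℝ) * A :=
      mul_le_mul hM hAx (by positivity) (Nat.cast_nonneg _)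
    have h2 : (x : ℝ) * D ≤ (x : ℝ) ^ (j + 1) := by
      rw [pow_succ']
      exact mul_le_mul_of_nonneg_left hDx hx0
    nlinarith [mul_le_mul_of_nonneg_right hm1 hxp]
  have hfin : c₀ * (m : ℝ) / 4 * (x : ℝ) ^ (j + 1) *
      (((m : ℝ) / 4) ^ i / (Nat.factorial i : ℝ)) ≤ (Nat.choose e i : ℝ) * N := by
    calc _ ≤ (((m - m / 2 : ℕ) : ℝ) * A - x * D) * B :=
          mul_le_mul hkey hBm (by positivity) (le_trans (by positivity) hkey)
      _ ≤ _ := by linarith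
  have hgoal : c₀ / (4 ^ (i + 1) * (Nat.factorial i : ℝ) * (Nat.choose e i : ℝ)) *
      (x : ℝ) ^ (j + 1) * (m : ℝ) ^ (i + 1) =
      (c₀ * (m : ℝ) / 4 * (x : ℝ) ^ (j + 1) *
        (((m : ℝ) / 4) ^ i / (Nat.factorial i : ℝ))) / (Nat.choose e i : ℝ) := by
    rw [div_pow, pow_succ (4 : ℝ) i, pow_succ (m : ℝ) i]
    field_simp
  rw [hgoal, div_le_iff₀ hch]
  linarith

/-- For `d / 2 = k + l`, `k ≥ 2`, `l ≥ 1`, there is `c > 0` such that for all large `x` and `m`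
there is a set `V` of `x m` points in convex position in `ℝ^d` whose convex hull has at most
`2 (x ^ k + m ^ l)` facets, such that every way of building up `V` by inserting one point at a
time (and removing points at will) creates in total at least `c x ^ k m ^ l` facets. -/
theorem result (d k l : ℕ) (hk : 2 ≤ k) (hl : 1 ≤ l) (hd : d / 2 = k + l) :
    ∃ c : ℝ, 0 < c ∧ ∃ x₀ : ℕ, ∀ x m : ℕ, x₀ ≤ x → x₀ ≤ m →
      ∃ V : Finset (Fin d → ℝ), V.card = x * m ∧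
        (∀ p ∈ V, p ∉ convexHull ℝ ((V : Set (Fin d → ℝ)) \ {p})) ∧
        (Facets (V : Set (Fin d → ℝ))).Finite ∧
        (Facets (V : Set (Fin d → ℝ))).ncard ≤ 2 * (x ^ k + m ^ l) ∧
        ∀ (N : ℕ) (S : ℕ → Set (Fin d → ℝ)), S 0 = ∅ → S N = (V : Set (Fin d → ℝ)) →
          (∀ t ≤ N, S t ⊆ (V : Set (Fin d → ℝ))) →
          (∀ t < N, S (t + 1) ⊆ S t ∨ ∃ p, S (t + 1) = insert p (S t)) →
          c * (x : ℝ) ^ k * (m : ℝ) ^ l ≤ created N S := by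
  obtain ⟨j, rfl⟩ : ∃ j, k = j + 1 := ⟨k - 1, by omega⟩
  obtain ⟨i, rfl⟩ : ∃ i, l = i + 1 := ⟨l - 1, by omega⟩
  obtain ⟨e, he1, he2, hde⟩ : ∃ e : ℕ, e / 2 = i + 1 ∧ 2 * i + 2 ≤ e ∧ d = 2 * j + 2 + e :=
    ⟨d - 2 * j - 2, by omega, by omega, by omega⟩
  obtain ⟨c, hc, x₀, hx₀⟩ := numeric (j := j) (i := i) (e := e) (by omega)
  refine ⟨c, hc, x₀ + 2 * e, ?_⟩
  intro x m hx hm
  obtain ⟨V, hV1, hV2, hV3, hV4, hV5⟩ := main_sets hde (by omega) he2 x m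
  refine ⟨V, hV1, hV2, hV3, ?_, ?_⟩
  · rw [he1] at hV4
    have h1 : Nat.choose x (j + 1) ≤ x ^ (j + 1) := Nat.choose_le_pow _ _
    have h2 : Nat.choose m (i + 1) ≤ m ^ (i + 1) := Nat.choose_le_pow _ _
    omega
  · intro N S h0 hN hsub hstep
    exact hx₀ x m _ (by omega) (by omega)
      (hV5 N S h0 hN hsub hstep (m / 2) (by omega) (by omega))

end Pool.Agent.Results.MP_dfcec9_lc.EveryInsertionOrder
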